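import Pool.Agent.H80E.SkW
import Pool.Agent.H80E.MixB

/-!
# Three commuting maps: almost everywhere convergence lifts to isometric and distal extensions

We consider the averages of `f₀ (T₀^n x) f₁ (T₁^n x) f₂ (T₂^n x)` over `|n| ≤ N` for three commuting invertible measure preserving maps such that
`T_i T_j⁻¹` is ergodic for `i ≠ j` (in the problem: `m = 3`, a commutative group, linear exponents; the `T_j` are arbitrary elements of the group).
The maps `T_j` themselves need not be ergodic. The almost everywhere convergence for all bounded functions is open. We prove that it passes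
from a system to all its isometric extensions, and so to all its distal extensions.

`Conv` means that, for all bounded functions, the averages over `[1, N]` and over `[-N, -1]` (and so also over `[-N, N]`) converge almost everywhere.
`ErgDiff` means that the sets `A` with `T_i⁻¹ A = T_j⁻¹ A` for some `i ≠ j` are trivial; for commuting maps this says that `T_i T_j⁻¹` is ergodic.

* (1) Let `S₀, S₁, S₂` be commuting invertible measure preserving maps of `(Y, μ)`, and let `T_j (y, w) = (S_j y, σ_j(y) • w)`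
  where `K` is a compact metrizable group acting on `W` and `σ_j : Y → K` are measurable with
  `σ_i(S_j y) σ_j(y) = σ_j(S_i y) σ_i(y)`. If `ErgDiff` holds for the `T_j` and `Conv` for the `S_j`, then `Conv` holds for the `T_j`.
* (2) If `ErgDiff` holds on `X` and `Conv` for the functions measurable with respect to a σ-algebra `𝓐`, then `Conv` holds for
  the functions measurable with respect to every σ-algebra in the smallest class which contains `𝓐` and
  is closed under isometric extensions and under directed suprema.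
* (3) An unconditional consequence: this applies when `𝓐` is given by a factor map to three commuting affine maps of a compact abelian group with Haar
  measure.
* (4) Another one: this applies to the σ-algebra generated by an algebra of sets for which the three maps are jointly mixing with a polynomial rate (for
  example the cylinder sets, when the `T_j` are the three shifts of a Bernoulli action of `ℤ³` or of one of its extensions).

Proof. Call `s` structured for `T_j` if `(x, x') ↦ s(x)` is in the closure in `L¹(μ × μ)` of the finite sums of functions `k(x, x') g(x')` with `g` bounded and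
`k` almost periodic for `T_j × T_j`. If `w` is orthogonal to the structured functions, then the energy of `w ⊗ w` for `T_j × T_j` (the fourth power of the second
Host–Kra seminorm, over the invariant sets of `T_j × T_j`) vanishes: averaging over an ergodic map commuting with `T_j` shows that `x ↦ ∫ k(x, x') w(x') dμ(x')` is structured.
So every bounded function is a sum of a structured one and one with energy zero. For three structured functions the averages are approximated, for independent points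
`y₀, y₁, y₂`, by sums of averages of `∏_j k_j(T_j^n x, T_j^n y_j) g_j(T_j^n y_j)`, which converge by Birkhoff's theorem for `T₀ × T₁ × T₂` and almost periodicity.
If one function is a `w` with energy zero, the averages tend to zero almost everywhere on an isometric extension of a system with convergence: van der Corput's inequality on the
fibres, with independent fibre coordinates for the three factors, leads to correlations over the base, which converge by assumption; the integrals of their limits are bounded by the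
energy, for `S_i S_j⁻¹` on the square of the base, of the fibre integral of `w(T_i^m x) w(x)`. As `S_i S_j⁻¹` is ergodic, the functions on the square which are invariant under
it are invariant under `S_i × S_i` (a kernel is a sum over eigenfunctions), so this is at most the energy of `w(T_i^m x) w(x)` for `T_i`, whose average over `m` is the energy of `w ⊗ w`.
-/

set_option autoImplicit false

open MeasureTheory Filter Topology Finset
open scoped ENNReal ComplexConjugate

namespace Pool.Agent.Results.MP_4d8f14_an.TripleDistalExtensions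

/-- the averages over the integers `n` in `[a, b]` of `f₀ (T₀^n x) f₁ (T₁^n x) f₂ (T₂^n x)` -/
noncomputable def avg {X : Type} {_ : MeasurableSpace X} (T : Fin 3 → X ≃ᵐ X) (f : Fin 3 → X → ℂ) (a b : ℤ) (x : X) : ℂ :=
  (1 / ((b - a + 1 : ℤ) : ℂ)) * ∑ n ∈ Finset.Icc a b, ∏ j, f j ((((T j).toEquiv : Equiv.Perm X) ^ n) x)

/-- almost everywhere convergence, for all bounded functions which are measurable with respect
to the σ-algebra `𝓐`, of the averages over `[1, N]`, over `[-N, -1]` and over `[-N, N]` -/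
def Conv {X : Type} {_ : MeasurableSpace X} (ν : Measure X) (T : Fin 3 → X ≃ᵐ X) (𝓐 : MeasurableSpace X) : Prop :=
  ∀ f : Fin 3 → X → ℂ, (∀ j, Measurable[𝓐] (f j)) → (∃ C, ∀ j x, ‖f j x‖ ≤ C) → ∀ᵐ x ∂ν,
    (∃ L, Tendsto (fun N : ℕ => avg T f 1 N x) atTop (𝓝 L)) ∧
    (∃ L, Tendsto (fun N : ℕ => avg T f (-N) (-1) x) atTop (𝓝 L)) ∧
    ∃ L, Tendsto (fun N : ℕ => avg T f (-N) N x) atTop (𝓝 L)

/-- for `i ≠ j` the sets `A` with `T_i⁻¹ A = T_j⁻¹ A` up to a null set have measure `0` or `1` -/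
def ErgDiff {X : Type} {_ : MeasurableSpace X} (μ : Measure X) (T : Fin 3 → X ≃ᵐ X) : Prop :=
  ∀ i j, i ≠ j → ∀ A, MeasurableSet A → T i ⁻¹' A =ᵐ[μ] T j ⁻¹' A → μ A = 0 ∨ μ A = 1

/-- `IsoExt μ T 𝓐 𝓑`: the σ-algebra `𝓑` is (contained in) an isometric extension of (a part of) the σ-algebra `𝓐`. That
is, there are a map `π` to a system `(Y, S₀, S₁, S₂)` with commuting `S_j` and a map `τ` to a space `W` with an action of a compact
metrizable group `K`, with `π (T_j x) = S_j (π x)` and `τ (T_j x) = σ_j (π x) • τ x` almost everywhere for a cocycle `(σ_j)`, the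
distribution of `(π, τ)` is the product of the one of `π` and of the image of Haar measure in an orbit in `W`; `π` is
measurable with respect to `𝓐` and `𝓑` is contained in the σ-algebra of `(π, τ)`, both up to null sets. -/
def IsoExt {X : Type} {_ : MeasurableSpace X} (μ : Measure X) (T : Fin 3 → X ≃ᵐ X) (𝓐 𝓑 : Set (Set X)) : Prop :=
  ∃ (Y K W : Type) (_ : MeasurableSpace Y) (_ : StandardBorelSpace Y) (_ : Group K) (_ : TopologicalSpace K)
    (_ : IsTopologicalGroup K) (_ : CompactSpace K) (_ : T2Space K) (_ : SecondCountableTopology K)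
    (_ : MeasurableSpace K) (_ : BorelSpace K) (_ : MeasurableSpace W) (_ : StandardBorelSpace W)
    (_ : MulAction K W) (_ : MeasurableSMul₂ K W) (ρ : Measure K) (_ : ρ.IsHaarMeasure)
    (_ : IsProbabilityMeasure ρ) (w₀ : W) (S : Fin 3 → Y ≃ᵐ Y) (σ : Fin 3 → Y → K) (π : X → Y) (τ : X → W),
    (∀ j, Measurable (σ j)) ∧ (∀ i j y, S i (S j y) = S j (S i y)) ∧
    (∀ i j y, σ i (S j y) * σ j y = σ j (S i y) * σ i y) ∧ Measurable π ∧ Measurable τ ∧
    (∀ j, ∀ᵐ x ∂μ, π (T j x) = S j (π x)) ∧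
    (∀ j, ∀ᵐ x ∂μ, τ (T j x) = σ j (π x) • τ x) ∧
    μ.map (fun x => (π x, τ x)) = (μ.map π).prod (ρ.map fun k => k • w₀) ∧
    (∀ D : Set Y, MeasurableSet D → ∃ A ∈ 𝓐, π ⁻¹' D =ᵐ[μ] A) ∧
    (∀ B ∈ 𝓑, ∃ C : Set (Y × W), MeasurableSet C ∧ B =ᵐ[μ] (fun x => (π x, τ x)) ⁻¹' C)

/-- `Distal μ T 𝓐 𝓑`: the σ-algebra `𝓑` is obtained from `𝓐` by (transfinitely many) isometric extensions and
suprema of directed families -/
inductive Distal {X : Type} {mX : MeasurableSpace X} (μ : Measure X) (T : Fin 3 → X ≃ᵐ X) (𝓐 : MeasurableSpace X) :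
    MeasurableSpace X → Prop
  | refl : Distal μ T 𝓐 𝓐
  | iso (𝓑 𝓒 : MeasurableSpace X) : Distal μ T 𝓐 𝓑 → 𝓒 ≤ mX →
      IsoExt μ T {s | MeasurableSet[𝓑] s} {s | MeasurableSet[𝓒] s} → Distal μ T 𝓐 𝓒
  | lim (F : Set (MeasurableSpace X)) : F.Nonempty → DirectedOn (· ≤ ·) F → (∀ 𝓑 ∈ F, Distal μ T 𝓐 𝓑) →
      Distal μ T 𝓐 (sSup F)

/-- joint mixing of the three maps with a polynomial rate for the sets of `𝒢` -/
def Mix {X : Type} {_ : MeasurableSpace X} (μ : Measure X) (T : Fin 3 → X ≃ᵐ X) (𝒢 : Set (Set X)) : Prop :=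
  ∀ A B : Fin 3 → Set X, (∀ j, A j ∈ 𝒢) → (∀ j, B j ∈ 𝒢) → ∃ C δ : ℝ, 0 < δ ∧ ∀ a b : ℤ,
    |μ.real {x | ∀ j, (((T j).toEquiv : Equiv.Perm X) ^ a) x ∈ A j ∧ (((T j).toEquiv : Equiv.Perm X) ^ b) x ∈ B j} -
        (∏ j, μ.real (A j)) * ∏ j, μ.real (B j)| ≤
      C * ((|(a : ℝ)| + 1) ^ (-δ) + (|(b : ℝ)| + 1) ^ (-δ) + (|(a : ℝ) - b| + 1) ^ (-δ))

lemma conv_iff {X : Type} {mX : MeasurableSpace X} (ν : Measure X) (T : Fin 3 → X ≃ᵐ X)
    (𝓐 : MeasurableSpace X) : Conv ν T 𝓐 ↔ @Pool.Agent.H80E.Cv2 X mX ν 3 T 𝓐 :=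
  @Pool.Agent.H80E.cv2_iff X 𝓐 mX ν 3 T

lemma distal_conv {X : Type} [mX : MeasurableSpace X] (μ : Measure X) [IsProbabilityMeasure μ] (T : Fin 3 → X ≃ᵐ X)
    (hT : ∀ j, MeasurePreserving (T j) μ μ) (hd : ErgDiff μ T) (𝓐 𝓑 : MeasurableSpace X) (hA : 𝓐 ≤ mX)
    (hc : Conv μ T 𝓐) (hD : Distal μ T 𝓐 𝓑) : Conv μ T 𝓑 := by
  suffices h : 𝓑 ≤ mX ∧ Conv μ T 𝓑 from h.2
  induction hD with
  | refl => exact ⟨hA, hc⟩
  | iso 𝓑 𝓒 _ hC hiso ih =>
    refine ⟨hC, ?_⟩
    obtain ⟨Y, K, W, _, _, _, _, _, _, _, _, _, _, _, _, _, _, ρ, _, _, w₀, S, σ, π, τ, h0, h1, h1', h2,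
      h3, h4, h5, h6, h7, h8⟩ := hiso
    rw [conv_iff] at ih ⊢
    exact @Pool.Agent.H80E.two_iso X 𝓒 𝓑 mX μ _ Y K W _ _ _ _ _ _ _ _ _ _ _ _ _ _ Pool.Agent.H80E.b3
      Pool.Agent.H80E.enp Pool.Agent.H80E.efac Pool.Agent.H80E.eop Pool.Agent.H80E.zpcf ρ _ _ w₀ S σ h0 h1 h1'
      π h2 τ h3 T hT hd h4 h5 h6 ih.1 h7 (fun B hB => ⟨hC B hB, h8 B hB⟩) ih.2
  | lim F hne hdir _ ih =>
    refine ⟨sSup_le fun 𝓑 hB => (ih 𝓑 hB).1, ?_⟩
    rw [conv_iff]
    exact @Pool.Agent.H80E.cv2_sup X mX μ _ F hne hdir (fun 𝓑 hB => (ih 𝓑 hB).1) 3 T hT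
      fun 𝓑 hB => (conv_iff μ T 𝓑).1 (ih 𝓑 hB).2

theorem result :
    -- (1)
    (∀ (Y K W : Type) [mY : MeasurableSpace Y] [StandardBorelSpace Y] [Group K] [TopologicalSpace K]
      [IsTopologicalGroup K] [CompactSpace K] [T2Space K] [SecondCountableTopology K] [MeasurableSpace K]
      [BorelSpace K] [MeasurableSpace W] [StandardBorelSpace W] [MulAction K W] [MeasurableSMul₂ K W]
      (μ : Measure Y) [IsProbabilityMeasure μ] (ρ : Measure K) [ρ.IsHaarMeasure] [IsProbabilityMeasure ρ]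
      (w₀ : W) (S : Fin 3 → Y ≃ᵐ Y) (_ : ∀ j, MeasurePreserving (S j) μ μ)
      (σ : Fin 3 → Y → K) (_ : ∀ j, Measurable (σ j)) (_ : ∀ i j y, S i (S j y) = S j (S i y))
      (_ : ∀ i j y, σ i (S j y) * σ j y = σ j (S i y) * σ i y) (T : Fin 3 → Y × W ≃ᵐ Y × W)
      (_ : ∀ j z, T j z = (S j z.1, σ j z.1 • z.2)) (_ : ErgDiff (μ.prod (ρ.map fun k => k • w₀)) T),
      Conv μ S mY → Conv (μ.prod (ρ.map fun k => k • w₀)) T (inferInstanceAs (MeasurableSpace (Y × W)))) ∧
    -- (2)
    (∀ (X : Type) [mX : MeasurableSpace X] (μ : Measure X) [IsProbabilityMeasure μ] (T : Fin 3 → X ≃ᵐ X)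
      (_ : ∀ j, MeasurePreserving (T j) μ μ) (_ : ErgDiff μ T) (𝓐 𝓑 : MeasurableSpace X), 𝓐 ≤ mX →
      Conv μ T 𝓐 → Distal μ T 𝓐 𝓑 → Conv μ T 𝓑) ∧
    -- (3)
    (∀ (X G : Type) [MeasurableSpace X] (μ : Measure X) [IsProbabilityMeasure μ] (T : Fin 3 → X ≃ᵐ X)
      (_ : ∀ j, MeasurePreserving (T j) μ μ) (_ : ErgDiff μ T) [CommGroup G] [TopologicalSpace G]
      [IsTopologicalGroup G] [CompactSpace G] [T2Space G] [mG : MeasurableSpace G] [BorelSpace G]
      (R : Fin 3 → Equiv.Perm G) (_ : ∀ j, ∃ (α : G →ₜ* G) (c : G), ∀ x, R j x = α x * c)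
      (_ : ∀ i j, Commute (R i) (R j)) (p : X → G) (_ : Measurable p) (_ : (μ.map p).IsHaarMeasure)
      (_ : ∀ j, ∀ᵐ x ∂μ, p (T j x) = R j (p x)) (𝓑 : MeasurableSpace X),
      Distal μ T (mG.comap p) 𝓑 → Conv μ T 𝓑) ∧
    -- (4)
    (∀ (X : Type) [MeasurableSpace X] (μ : Measure X) [IsProbabilityMeasure μ] (T : Fin 3 → X ≃ᵐ X)
      (_ : ∀ j, MeasurePreserving (T j) μ μ) (_ : ErgDiff μ T) (𝒢 : Set (Set X)) (_ : IsSetAlgebra 𝒢)
      (_ : ∀ A ∈ 𝒢, MeasurableSet A) (_ : Mix μ T 𝒢) (𝓑 : MeasurableSpace X),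
      Distal μ T (MeasurableSpace.generateFrom 𝒢) 𝓑 → Conv μ T 𝓑) := by
  have h2 : ∀ (X : Type) [mX : MeasurableSpace X] (μ : Measure X) [IsProbabilityMeasure μ] (T : Fin 3 → X ≃ᵐ X)
      (_ : ∀ j, MeasurePreserving (T j) μ μ) (_ : ErgDiff μ T) (𝓐 𝓑 : MeasurableSpace X), 𝓐 ≤ mX →
      Conv μ T 𝓐 → Distal μ T 𝓐 𝓑 → Conv μ T 𝓑 := by
    intro X mX μ _ T hT hd 𝓐 𝓑 hA hc hD
    exact @distal_conv X mX μ _ T hT hd 𝓐 𝓑 hA hc hD
  refine ⟨?_, h2, ?_, ?_⟩
  · intro Y K W mY _ _ _ _ _ _ _ _ _ mW _ _ _ μ _ ρ _ _ w₀ S hS σ hσ hcS hcσ T hTS hd hc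
    rw [conv_iff] at hc ⊢
    exact Pool.Agent.H80E.two_W μ ρ w₀ S hS σ hσ hcS hcσ T hTS hd hc
  · intro X G mX μ _ T hT hd _ _ _ _ _ mG _ R hR hcR p hp hpH hpT
    have h1 : Conv μ T (mG.comap p) := by
      rw [conv_iff]
      exact Pool.Agent.H80E.alg_base hT hR hcR hp hpH hpT
    exact fun 𝓑 hD => @distal_conv X mX μ _ T hT hd (mG.comap p) 𝓑 hp.comap_le h1 hD
  · intro X mX μ _ T hT hd 𝒢 h𝒢 hm hmix
    have h1 : Conv μ T (MeasurableSpace.generateFrom 𝒢) := by
      rw [conv_iff]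
      exact Pool.Agent.H80E.mix_base hT h𝒢 hm hmix
    exact fun 𝓑 hD => @distal_conv X mX μ _ T hT hd _ 𝓑 (MeasurableSpace.generateFrom_le hm) h1 hD

end Pool.Agent.Results.MP_4d8f14_an.TripleDistalExtensions
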